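import Mathlib
import Pool.Agent.V11141.ChromDef
import Pool.Agent.V11141.ChromH

/-!
# The symmetric decomposition of the chromatic numerator polynomial
-/

namespace Pool.Agent.Results.MP_9dade1_co.Decomp

open Pool.Agent.V11141.Chrom

/-- `p` is `m`-symmetric: `p(z) = z^m p(1/z)`. -/
def IsSymm (m : ℕ) (p : Polynomial ℤ) : Prop :=
  p.natDegree ≤ m ∧ ∀ i ≤ m, p.coeff i = p.coeff (m - i)

theorem split_sum (h : Polynomial ℤ) (k : ℕ) :
    ∑ j ∈ Finset.range (k + 1), h.coeff j = ∑ j ∈ Finset.range k, h.coeff j + h.coeff k :=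
  Finset.sum_range_succ _ _

/-- formula for the coefficients in a decomposition -/
theorem coeff_a {d : ℕ} (hd : 1 ≤ d) {h a b : Polynomial ℤ} (ha : IsSymm d a)
    (hb : IsSymm (d - 1) b) (hdec : h = a + Polynomial.X * b) : ∀ i ≤ d,
    a.coeff i = ∑ j ∈ Finset.range (i + 1), h.coeff j -
      (∑ j ∈ Finset.range (d + 1), h.coeff j - ∑ j ∈ Finset.range (d + 1 - i), h.coeff j) := by
  intro i
  induction i with
  | zero =>
    intro _
    simp [hdec]
  | succ i ih =>
    intro hi
    have h1 := ih (by omega)
    have h2 : ∑ j ∈ Finset.range (d + 1 - i), h.coeff j =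
        ∑ j ∈ Finset.range (d + 1 - (i + 1)), h.coeff j + h.coeff (d - i) := by
      have : d + 1 - i = (d - i) + 1 := by omega
      rw [this, split_sum]
      have : d + 1 - (i + 1) = d - i := by omega
      rw [this]
    have h3 : h.coeff (i + 1) = a.coeff (i + 1) + b.coeff i := by
      rw [hdec, Polynomial.coeff_add, Polynomial.coeff_X_mul]
    have h4 : h.coeff (d - i) = a.coeff i + b.coeff i := by
      obtain ⟨c, hc⟩ : ∃ c, d - i = c + 1 := ⟨d - i - 1, by omega⟩
      have h5 := ha.2 i (by omega)
      have h6 := hb.2 i (by omega)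
      rw [hc, hdec, Polynomial.coeff_add, Polynomial.coeff_X_mul, h6, h5, hc]
      congr 2
      omega
    rw [split_sum h (i + 1)]
    linarith

/-- For every finite graph `G` on `d ≥ 1` vertices there is a polynomial `h` with
`∑ χ_G(n) z^n = h(z) / (1-z)^(d+1)`; it has a decomposition `h = a + z b` with `a`
`d`-symmetric and `b` `(d-1)`-symmetric, and in every such decomposition all coefficients of
`b` are nonnegative and all coefficients of `a` are nonpositive. -/
theorem result {V : Type} [Fintype V] [Nonempty V] (G : SimpleGraph V) :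
    ∃ h : Polynomial ℤ,
      (1 - PowerSeries.X) ^ (Fintype.card V + 1) * gen G = (h : PowerSeries ℤ) ∧
      (∃ a b : Polynomial ℤ, IsSymm (Fintype.card V) a ∧ IsSymm (Fintype.card V - 1) b ∧
        h = a + Polynomial.X * b) ∧
      ∀ a b : Polynomial ℤ, IsSymm (Fintype.card V) a → IsSymm (Fintype.card V - 1) b →
        h = a + Polynomial.X * b → ∀ i, 0 ≤ b.coeff i ∧ a.coeff i ≤ 0 := by
  obtain ⟨h, hdeg, hh⟩ := exists_poly G
  have hd : 1 ≤ Fintype.card V := Fintype.card_pos
  have hmain := main V _ G rfl
  simp only [hh, S_coe] at hmain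
  set d := Fintype.card V with hdd
  refine ⟨h, hh, ?_, ?_⟩
  · let s : ℕ → ℤ := fun k => ∑ j ∈ Finset.range k, h.coeff j
    have hs : ∀ k, s (k + 1) = s k + h.coeff k := fun k => split_sum h k
    let ca : ℕ → ℤ := fun i => s (i + 1) - (s (d + 1) - s (d + 1 - i))
    let cb : ℕ → ℤ := fun i => (s (d + 1) - s (d - i)) - s (i + 1)
    let a : Polynomial ℤ := ∑ i ∈ Finset.range (d + 1), Polynomial.monomial i (ca i)
    let b : Polynomial ℤ := ∑ i ∈ Finset.range d, Polynomial.monomial i (cb i)
    have hca : ∀ i, a.coeff i = if i < d + 1 then ca i else 0 := by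
      intro i
      simp only [a, Polynomial.finsetSum_coeff, Polynomial.coeff_monomial]
      rw [Finset.sum_ite_eq']
      simp
    have hcb : ∀ i, b.coeff i = if i < d then cb i else 0 := by
      intro i
      simp only [b, Polynomial.finsetSum_coeff, Polynomial.coeff_monomial]
      rw [Finset.sum_ite_eq']
      simp
    refine ⟨a, b, ⟨?_, ?_⟩, ⟨?_, ?_⟩, ?_⟩
    · rw [Polynomial.natDegree_le_iff_coeff_eq_zero]
      intro N hN
      rw [hca, if_neg (by omega)]
    · intro i hi
      rw [hca, hca, if_pos (by omega), if_pos (by omega)]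
      show s (i + 1) - (s (d + 1) - s (d + 1 - i)) =
        s (d - i + 1) - (s (d + 1) - s (d + 1 - (d - i)))
      have h1 : d + 1 - i = d - i + 1 := by omega
      have h2 : d + 1 - (d - i) = i + 1 := by omega
      rw [h1, h2]
      ring
    · rw [Polynomial.natDegree_le_iff_coeff_eq_zero]
      intro N hN
      rw [hcb, if_neg (by omega)]
    · intro i hi
      rw [hcb, hcb, if_pos (by omega), if_pos (by omega)]
      show (s (d + 1) - s (d - i)) - s (i + 1) =
        (s (d + 1) - s (d - (d - 1 - i))) - s (d - 1 - i + 1)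
      have h1 : d - (d - 1 - i) = i + 1 := by omega
      have h2 : d - 1 - i + 1 = d - i := by omega
      rw [h1, h2]
      ring
    · ext i
      rw [Polynomial.coeff_add]
      rcases i with _ | i
      · rw [Polynomial.mul_coeff_zero, Polynomial.coeff_X_zero, zero_mul, add_zero, hca,
          if_pos (by omega)]
        show h.coeff 0 = s (0 + 1) - (s (d + 1) - s (d + 1 - 0))
        rw [hs 0]
        simp [s]
      · rw [Polynomial.coeff_X_mul, hca, hcb]
        by_cases hi : i < d
        · rw [if_pos (by omega), if_pos hi]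
          show h.coeff (i + 1) = s (i + 1 + 1) - (s (d + 1) - s (d + 1 - (i + 1))) +
            ((s (d + 1) - s (d - i)) - s (i + 1))
          have h1 : d + 1 - (i + 1) = d - i := by omega
          rw [h1, hs (i + 1)]
          ring
        · rw [if_neg (by omega), if_neg hi]
          rw [Polynomial.coeff_eq_zero_of_natDegree_lt (by omega)]
          ring
  · intro a b ha hb hdec i
    have hA := coeff_a hd ha hb hdec
    have hA0 : ∀ i, a.coeff i ≤ 0 := by
      intro i
      by_cases hi : i ≤ d
      · rw [hA i hi]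
        have := hmain.1 i hi
        linarith
      · rw [Polynomial.coeff_eq_zero_of_natDegree_lt (by have := ha.1; omega)]
    refine ⟨?_, hA0 i⟩
    by_cases hi : i < d
    · have h1 := hmain.2 i hi
      have h2 := hA (i + 1) (by omega)
      have h3 : h.coeff (i + 1) = a.coeff (i + 1) + b.coeff i := by
        rw [hdec, Polynomial.coeff_add, Polynomial.coeff_X_mul]
      have h4 : d + 1 - (i + 1) = d - i := by omega
      rw [h4, split_sum h (i + 1)] at h2
      linarith
    · rw [Polynomial.coeff_eq_zero_of_natDegree_lt (by have := hb.1; omega)]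

end Pool.Agent.Results.MP_9dade1_co.Decomp
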